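import Pool.Agent.GapB.Rank

/-!
Upper bound for `log Y j` when `Y j ∣ 4 n!`.
-/

namespace Pool.Agent.GapB

open Finset

theorem log_eq_sum (N : ℕ) :
    Real.log N = ∑ p ∈ N.primeFactors, (N.factorization p : ℝ) * Real.log p := by
  rw [Real.log_nat_eq_sum_factorization, Finsupp.sum, Nat.support_factorization]

theorem sum_le_log (N : ℕ) (s : Finset ℕ) :
    ∑ p ∈ s, (N.factorization p : ℝ) * Real.log p ≤ Real.log N := by
  rw [log_eq_sum]
  have h1 : ∑ p ∈ s, (N.factorization p : ℝ) * Real.log p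
      = ∑ p ∈ s.filter (fun p => p ∈ N.primeFactors), (N.factorization p : ℝ) * Real.log p := by
    rw [Finset.sum_filter]
    refine Finset.sum_congr rfl (fun p _ => ?_)
    split_ifs with h
    · rfl
    · rw [← Nat.support_factorization, Finsupp.notMem_support_iff] at h
      rw [h]; simp
  rw [h1]
  refine Finset.sum_le_sum_of_subset_of_nonneg (fun p hp => (Finset.mem_filter.1 hp).2) ?_
  intro p _ _
  exact mul_nonneg (Nat.cast_nonneg _) (Real.log_natCast_nonneg p)

section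
variable {d x y : ℕ}

theorem dyY_le (h : x ^ 2 = d * y ^ 2 + 1) (k : ℕ) : d * y * Y d x y k ≤ x * X d x y k := by
  have h1 := pell h k
  have h2 : (d * y * Y d x y k) ^ 2 ≤ (x * X d x y k) ^ 2 := by
    have e1 : (d * y * Y d x y k) ^ 2 = (d * y ^ 2) * (d * Y d x y k ^ 2) := by ring
    have e2 : (x * X d x y k) ^ 2 = x ^ 2 * X d x y k ^ 2 := by ring
    rw [e1, e2]
    exact Nat.mul_le_mul (by omega) (by omega)
  exact (Nat.pow_le_pow_iff_left (by norm_num)).1 h2

theorem X_le (h : x ^ 2 = d * y ^ 2 + 1) (k : ℕ) : X d x y k ≤ (2 * x) ^ k := by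
  induction k with
  | zero => simp
  | succ k ih =>
    rw [X_succ, pow_succ]
    have := dyY_le h k
    nlinarith [Nat.mul_le_mul_left x ih]

theorem Y_le_X (hd : 1 ≤ d) (h : x ^ 2 = d * y ^ 2 + 1) (k : ℕ) : Y d x y k ≤ X d x y k := by
  have h1 := pell h k
  have h2 : Y d x y k ^ 2 ≤ X d x y k ^ 2 := by
    rw [h1]; nlinarith [Nat.mul_le_mul_right (Y d x y k ^ 2) hd]
  exact (Nat.pow_le_pow_iff_left (by norm_num)).1 h2

theorem two_pow_le_Y (hx : 2 ≤ x) (hy : 1 ≤ y) (k : ℕ) : 2 ^ k ≤ Y d x y (k + 1) := by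
  induction k with
  | zero => simpa using hy
  | succ k ih =>
    rw [Y_succ, pow_succ]
    nlinarith [Nat.mul_le_mul hx ih, Nat.zero_le (y * X d x y (k + 1))]

theorem log_Y_le_mul (hd : 1 ≤ d) (h : x ^ 2 = d * y ^ 2 + 1) (hx : 1 ≤ x) (hy : 1 ≤ y) {k : ℕ}
    (hk : 1 ≤ k) : Real.log (Y d x y k) ≤ k * Real.log (2 * x) := by
  have h1 : Y d x y k ≤ (2 * x) ^ k := (Y_le_X hd h k).trans (X_le h k)
  have h2 := Y_pos (d := d) hx hy hk
  have h3 : (Y d x y k : ℝ) ≤ (2 * (x : ℝ)) ^ k := by exact_mod_cast h1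
  calc Real.log (Y d x y k) ≤ Real.log ((2 * (x : ℝ)) ^ k) :=
        Real.log_le_log (by exact_mod_cast h2) h3
    _ = k * Real.log (2 * x) := Real.log_pow _ _

theorem log_Y_split (h : x ^ 2 = d * y ^ 2 + 1) (hx : 1 ≤ x) (hy : 1 ≤ y) {j : ℕ} (hj : 1 ≤ j)
    (T : ℕ) :
    Real.log (Y d x y j) ≤ Real.log j + ∑ r ∈ Icc 1 T, Real.log (Y d x y r) +
      ∑ p ∈ (Y d x y j).primeFactors.filter (fun p => T < rk d x y p),
        ((Y d x y j).factorization p : ℝ) * Real.log p := by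
  rw [log_eq_sum (Y d x y j),
    ← Finset.sum_filter_add_sum_filter_not _ (fun p => T < rk d x y p), add_comm]
  gcongr
  set F := (Y d x y j).primeFactors.filter (fun p => ¬ T < rk d x y p) with hF
  have h1 : ∀ p ∈ F, ((Y d x y j).factorization p : ℝ) * Real.log p ≤
      (j.factorization p : ℝ) * Real.log p +
        ((Y d x y (rk d x y p)).factorization p : ℝ) * Real.log p := by
    intro p hp
    have hpf := (Finset.mem_filter.1 hp).1
    have hpp := Nat.prime_of_mem_primeFactors hpf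
    have hdv := Nat.dvd_of_mem_primeFactors hpf
    have h2 := fact_Y_le h hx hy hpp hj hdv
    have h3 : ((Y d x y j).factorization p : ℝ) ≤
        ((Y d x y (rk d x y p)).factorization p : ℝ) + (j.factorization p : ℝ) := by
      exact_mod_cast h2
    have h4 := Real.log_natCast_nonneg p
    nlinarith
  refine (Finset.sum_le_sum h1).trans ?_
  rw [Finset.sum_add_distrib]
  refine add_le_add (sum_le_log j F) ?_
  have hmaps : ∀ p ∈ F, rk d x y p ∈ Icc 1 T := by
    intro p hp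
    have hpf := Finset.mem_filter.1 hp
    have hpp := Nat.prime_of_mem_primeFactors hpf.1
    have := (rk_spec h hpp).1
    exact Finset.mem_Icc.2 ⟨this, not_lt.1 hpf.2⟩
  rw [← Finset.sum_fiberwise_of_maps_to hmaps]
  refine Finset.sum_le_sum (fun r _ => ?_)
  have h5 : ∑ p ∈ F.filter (fun p => rk d x y p = r),
      ((Y d x y (rk d x y p)).factorization p : ℝ) * Real.log p
      = ∑ p ∈ F.filter (fun p => rk d x y p = r),
      ((Y d x y r).factorization p : ℝ) * Real.log p := by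
    refine Finset.sum_congr rfl (fun p hp => ?_)
    rw [(Finset.mem_filter.1 hp).2]
  rw [h5]
  exact sum_le_log _ _

theorem sum_small (hd : 1 ≤ d) (h : x ^ 2 = d * y ^ 2 + 1) (hx : 1 ≤ x) (hy : 1 ≤ y) (T : ℕ) :
    ∑ r ∈ Icc 1 T, Real.log (Y d x y r) ≤ (T : ℝ) ^ 2 * Real.log (2 * x) := by
  have hx1 : (1 : ℝ) ≤ x := by exact_mod_cast hx
  have h0 : 0 ≤ Real.log (2 * (x : ℝ)) := Real.log_nonneg (by linarith)
  have h1 : ∀ r ∈ Icc 1 T, Real.log (Y d x y r) ≤ (T : ℝ) * Real.log (2 * x) := by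
    intro r hr
    obtain ⟨hr1, hr2⟩ := Finset.mem_Icc.1 hr
    refine (log_Y_le_mul hd h hx hy hr1).trans ?_
    have : (r : ℝ) ≤ T := by exact_mod_cast hr2
    gcongr
  refine (Finset.sum_le_sum h1).trans ?_
  rw [Finset.sum_const, Nat.card_Icc, nsmul_eq_mul]
  simp only [Nat.add_sub_cancel]
  apply le_of_eq
  ring

theorem class_sum (n r e : ℕ) (hr : 1 ≤ r) (he : e ≤ 2) :
    ∑ m ∈ (Icc 2 n).filter (fun m => r ∣ m - 1 + e), (1 : ℝ) / ((m : ℝ) - 1) ≤
      3 / r * (1 + Real.log (n + 1)) := by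
  set B := (Icc 2 n).filter (fun m => r ∣ m - 1 + e) with hB
  have hr0 : (0 : ℝ) < r := by exact_mod_cast hr
  have hinj : Set.InjOn (fun m => (m - 1 + e) / r) (B : Set ℕ) := by
    intro m hm m' hm' hmm
    have h1 := Finset.mem_filter.1 (Finset.mem_coe.1 hm)
    have h2 := Finset.mem_filter.1 (Finset.mem_coe.1 hm')
    have h3 := (Finset.mem_Icc.1 h1.1).1
    have h4 := (Finset.mem_Icc.1 h2.1).1
    simp only at hmm
    have h5 := Nat.div_mul_cancel h1.2
    have h6 := Nat.div_mul_cancel h2.2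
    rw [hmm] at h5
    omega
  have hle : ∀ m ∈ B, (1 : ℝ) / ((m : ℝ) - 1) ≤ 3 / r * (((m - 1 + e) / r : ℕ) : ℝ)⁻¹ := by
    intro m hm
    have h1 := Finset.mem_filter.1 hm
    have h3 := (Finset.mem_Icc.1 h1.1).1
    have h5 := Nat.div_mul_cancel h1.2
    have hpos : 0 < (m - 1 + e) / r := by
      rcases Nat.eq_zero_or_pos ((m - 1 + e) / r) with h0 | h0
      · rw [h0] at h5; omega
      · exact h0
    have hm1 : (0 : ℝ) < (m : ℝ) - 1 := by
      have : (2 : ℝ) ≤ m := by exact_mod_cast h3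
      linarith
    have h6 : (((m - 1 + e) / r : ℕ) : ℝ) * r = (m : ℝ) - 1 + e := by
      have : (((m - 1 + e) / r * r : ℕ) : ℝ) = ((m - 1 + e : ℕ) : ℝ) := by rw [h5]
      push_cast [Nat.cast_sub (show 1 ≤ m by omega)] at this
      exact_mod_cast this
    have hq : (0 : ℝ) < (((m - 1 + e) / r : ℕ) : ℝ) := by exact_mod_cast hpos
    have h7 : 3 / r * (((m - 1 + e) / r : ℕ) : ℝ)⁻¹ = 3 / ((((m - 1 + e) / r : ℕ) : ℝ) * r) := by
      field_simp
    rw [h7, h6]
    have he' : (e : ℝ) ≤ 2 := by exact_mod_cast he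
    have hm2 : (2 : ℝ) ≤ m := by exact_mod_cast h3
    rw [div_le_div_iff₀ hm1 (by positivity)]
    linarith
  refine (Finset.sum_le_sum hle).trans ?_
  rw [← Finset.mul_sum]
  refine mul_le_mul_of_nonneg_left ?_ (by positivity)
  have h8 : ∑ m ∈ B, (((m - 1 + e) / r : ℕ) : ℝ)⁻¹
      = ∑ k ∈ B.image (fun m => (m - 1 + e) / r), (k : ℝ)⁻¹ := by
    rw [Finset.sum_image hinj]
  rw [h8]
  have hsub : B.image (fun m => (m - 1 + e) / r) ⊆ Icc 1 (n + 1) := by
    intro k hk
    obtain ⟨m, hm, rfl⟩ := Finset.mem_image.1 hk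
    have h1 := Finset.mem_filter.1 hm
    have h3 := Finset.mem_Icc.1 h1.1
    have h5 := Nat.div_mul_cancel h1.2
    refine Finset.mem_Icc.2 ⟨?_, ?_⟩
    · rcases Nat.eq_zero_or_pos ((m - 1 + e) / r) with h0 | h0
      · rw [h0] at h5; omega
      · exact h0
    · refine (Nat.div_le_self _ _).trans ?_
      omega
  refine (Finset.sum_le_sum_of_subset_of_nonneg hsub
    (fun k _ _ => by positivity)).trans ?_
  have h9 := harmonic_le_one_add_log (n + 1)
  rw [harmonic_eq_sum_Icc] at h9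
  push_cast at h9
  exact h9

theorem sum_union_le' (s t : Finset ℕ) (g : ℕ → ℝ) (h : ∀ m ∈ s ∩ t, 0 ≤ g m) :
    ∑ m ∈ s ∪ t, g m ≤ ∑ m ∈ s, g m + ∑ m ∈ t, g m := by
  rw [← Finset.sum_union_inter]
  have := Finset.sum_nonneg h
  linarith

theorem rank_sum (n r : ℕ) (hr : 1 ≤ r) :
    ∑ m ∈ (Icc 2 n).filter (fun m => r ∣ m - 1 ∨ r ∣ m ∨ r ∣ m + 1), (1 : ℝ) / ((m : ℝ) - 1) ≤
      9 / r * (1 + Real.log (n + 1)) := by
  have hsub : (Icc 2 n).filter (fun m => r ∣ m - 1 ∨ r ∣ m ∨ r ∣ m + 1) ⊆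
      ((Icc 2 n).filter (fun m => r ∣ m - 1 + 0)) ∪ ((Icc 2 n).filter (fun m => r ∣ m - 1 + 1)) ∪
        ((Icc 2 n).filter (fun m => r ∣ m - 1 + 2)) := by
    intro m hm
    obtain ⟨h1, h2⟩ := Finset.mem_filter.1 hm
    have h3 := (Finset.mem_Icc.1 h1).1
    simp only [Finset.mem_union, Finset.mem_filter]
    rcases h2 with h2 | h2 | h2
    · exact Or.inl (Or.inl ⟨h1, by simpa using h2⟩)
    · exact Or.inl (Or.inr ⟨h1, by rwa [show m - 1 + 1 = m by omega]⟩)
    · exact Or.inr ⟨h1, by rwa [show m - 1 + 2 = m + 1 by omega]⟩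
  have hnn : ∀ m ∈ Icc 2 n, (0 : ℝ) ≤ 1 / ((m : ℝ) - 1) := by
    intro m hm
    have h3 := (Finset.mem_Icc.1 hm).1
    have : (2 : ℝ) ≤ m := by exact_mod_cast h3
    apply div_nonneg one_pos.le
    linarith
  have h1 := class_sum n r 0 hr (by norm_num)
  have h2 := class_sum n r 1 hr (by norm_num)
  have h3 := class_sum n r 2 hr (by norm_num)
  refine (Finset.sum_le_sum_of_subset_of_nonneg hsub ?_).trans ?_
  · intro m hm _
    simp only [Finset.mem_union, Finset.mem_filter] at hm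
    exact hnn m (by tauto)
  · refine (sum_union_le' _ _ _ ?_).trans ?_
    · intro m hm
      exact hnn m (Finset.mem_filter.1 (Finset.mem_inter.1 hm).2).1
    · have h4 := sum_union_le' ((Icc 2 n).filter (fun m => r ∣ m - 1 + 0))
        ((Icc 2 n).filter (fun m => r ∣ m - 1 + 1)) (fun m => (1 : ℝ) / ((m : ℝ) - 1))
        (fun m hm => hnn m (Finset.mem_filter.1 (Finset.mem_inter.1 hm).2).1)
      have h5 : (9 : ℝ) / r * (1 + Real.log (n + 1)) = 3 / r * (1 + Real.log (n + 1)) +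
        3 / r * (1 + Real.log (n + 1)) + 3 / r * (1 + Real.log (n + 1)) := by ring
      rw [h5]
      linarith

theorem large_sum (h : x ^ 2 = d * y ^ 2 + 1) (hx : 1 ≤ x) (hy : 1 ≤ y) {j n T : ℕ}
    (hj : 1 ≤ j) (hn : 2 ≤ n) (hT : 2 ≤ T) (hdiv : Y d x y j ∣ 4 * n.factorial) :
    ∑ p ∈ (Y d x y j).primeFactors.filter (fun p => T < rk d x y p),
        ((Y d x y j).factorization p : ℝ) * Real.log p ≤
      9 * n * Real.log n * (1 + Real.log (n + 1)) * (j.divisors.card : ℝ) / T := by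
  set F := (Y d x y j).primeFactors.filter (fun p => T < rk d x y p) with hF
  have hn0 : (0 : ℝ) < n := by exact_mod_cast (show 0 < n by omega)
  have hT0 : (0 : ℝ) < T := by exact_mod_cast (show 0 < T by omega)
  have hlogn : 0 ≤ Real.log n := Real.log_natCast_nonneg n
  have hlogn1 : 0 ≤ Real.log ((n : ℝ) + 1) := Real.log_nonneg (by linarith)
  -- facts on the primes in `F`
  have hFp : ∀ p ∈ F, p.Prime ∧ p ≠ 2 ∧ p ≤ n ∧ p ∣ Y d x y j ∧ T < rk d x y p ∧
      (((Y d x y j).factorization p : ℝ) * Real.log p ≤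
        (n * Real.log n) * (1 / ((p : ℝ) - 1))) := by
    intro p hp
    obtain ⟨hp1, hp2⟩ := Finset.mem_filter.1 hp
    have hpp := Nat.prime_of_mem_primeFactors hp1
    have hdv := Nat.dvd_of_mem_primeFactors hp1
    have hne2 : p ≠ 2 := by
      rintro rfl
      have := rk_two_le (d := d) (x := x) (y := y) h
      omega
    have hd4 : p ∣ 4 * n.factorial := hdv.trans hdiv
    have hnd4 : ¬ p ∣ 4 := by
      intro h4
      have : p ∣ 2 := hpp.dvd_of_dvd_pow (show p ∣ 2 ^ 2 by norm_num; exact h4)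
      exact hne2 ((Nat.prime_dvd_prime_iff_eq hpp Nat.prime_two).1 this)
    have hpn : p ≤ n := by
      rcases hpp.dvd_mul.1 hd4 with h4 | h4
      · exact absurd h4 hnd4
      · exact (hpp.dvd_factorial).1 h4
    refine ⟨hpp, hne2, hpn, hdv, hp2, ?_⟩
    have h4ne : 4 * n.factorial ≠ 0 := by
      have := n.factorial_pos
      omega
    have h1 : (Y d x y j).factorization p ≤ (4 * n.factorial).factorization p :=
      (Nat.factorization_le_iff_dvd (by have := Y_pos (d := d) hx hy hj; omega) h4ne).2 hdiv p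
    have h2 : (4 * n.factorial).factorization p = n.factorial.factorization p := by
      rw [Nat.factorization_mul (by norm_num) n.factorial_ne_zero, Finsupp.add_apply,
        Nat.factorization_eq_zero_of_not_dvd hnd4, zero_add]
    have h3 := Nat.factorization_factorial_le_div_pred hpp n
    have hp2r : (2 : ℝ) ≤ p := by exact_mod_cast hpp.two_le
    have h4 : ((Y d x y j).factorization p : ℝ) ≤ n / ((p : ℝ) - 1) := by
      have h5 : (Y d x y j).factorization p ≤ n / (p - 1) := by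
        rw [h2] at h1
        exact h1.trans h3
      have h6 : ((n / (p - 1) : ℕ) : ℝ) ≤ (n : ℝ) / ((p - 1 : ℕ) : ℝ) := Nat.cast_div_le
      rw [Nat.cast_sub hpp.one_le, Nat.cast_one] at h6
      exact le_trans (by exact_mod_cast h5) h6
    have h7 : Real.log p ≤ Real.log n :=
      Real.log_le_log (by linarith) (by exact_mod_cast hpn)
    have h8 : 0 ≤ Real.log p := Real.log_natCast_nonneg p
    have h9 : (0 : ℝ) ≤ n / ((p : ℝ) - 1) := div_nonneg hn0.le (by linarith)
    calc ((Y d x y j).factorization p : ℝ) * Real.log p ≤ n / ((p : ℝ) - 1) * Real.log n :=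
          mul_le_mul h4 h7 h8 h9
      _ = (n * Real.log n) * (1 / ((p : ℝ) - 1)) := by ring
  refine (Finset.sum_le_sum (fun p hp => (hFp p hp).2.2.2.2.2)).trans ?_
  rw [← Finset.mul_sum]
  set D := j.divisors.filter (fun r => T < r) with hD
  have hmaps : ∀ p ∈ F, rk d x y p ∈ D := by
    intro p hp
    obtain ⟨hpp, _, _, hdv, hT', _⟩ := hFp p hp
    exact Finset.mem_filter.2 ⟨Nat.mem_divisors.2 ⟨rk_dvd h hpp hdv, by omega⟩, hT'⟩
  rw [← Finset.sum_fiberwise_of_maps_to hmaps]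
  have hin : ∀ r ∈ D, ∑ p ∈ F.filter (fun p => rk d x y p = r), (1 : ℝ) / ((p : ℝ) - 1) ≤
      9 / T * (1 + Real.log (n + 1)) := by
    intro r hr
    have hrT := (Finset.mem_filter.1 hr).2
    have hr1 : 1 ≤ r := by omega
    have hsub : F.filter (fun p => rk d x y p = r) ⊆
        (Icc 2 n).filter (fun m => r ∣ m - 1 ∨ r ∣ m ∨ r ∣ m + 1) := by
      intro p hp
      obtain ⟨hp1, hp2⟩ := Finset.mem_filter.1 hp
      obtain ⟨hpp, hne2, hpn, _, _, _⟩ := hFp p hp1
      refine Finset.mem_filter.2 ⟨Finset.mem_Icc.2 ⟨hpp.two_le, hpn⟩, ?_⟩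
      rw [← hp2]
      exact rk_cases h hpp hne2
    refine (Finset.sum_le_sum_of_subset_of_nonneg hsub ?_).trans ?_
    · intro m hm _
      have h3 := (Finset.mem_Icc.1 (Finset.mem_filter.1 hm).1).1
      have : (2 : ℝ) ≤ m := by exact_mod_cast h3
      apply div_nonneg one_pos.le
      linarith
    · refine (rank_sum n r hr1).trans ?_
      have : (T : ℝ) ≤ r := by exact_mod_cast hrT.le
      gcongr
  refine (mul_le_mul_of_nonneg_left (Finset.sum_le_sum hin)
    (mul_nonneg hn0.le hlogn)).trans ?_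
  rw [Finset.sum_const, nsmul_eq_mul]
  have hcard : (D.card : ℝ) ≤ j.divisors.card := by
    exact_mod_cast Finset.card_le_card (Finset.filter_subset _ _)
  calc (n : ℝ) * Real.log n * ((D.card : ℝ) * (9 / T * (1 + Real.log (n + 1))))
      ≤ n * Real.log n * ((j.divisors.card : ℝ) * (9 / T * (1 + Real.log (n + 1)))) := by
        gcongr
    _ = 9 * n * Real.log n * (1 + Real.log (n + 1)) * (j.divisors.card : ℝ) / T := by ring

/-- the main upper bound -/
theorem log_Y_bound (hd : 1 ≤ d) (h : x ^ 2 = d * y ^ 2 + 1) (hx : 1 ≤ x) (hy : 1 ≤ y)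
    {j n T : ℕ} (hj : 1 ≤ j) (hn : 2 ≤ n) (hT : 2 ≤ T) (hdiv : Y d x y j ∣ 4 * n.factorial) :
    Real.log (Y d x y j) ≤ Real.log j + (T : ℝ) ^ 2 * Real.log (2 * x) +
      9 * n * Real.log n * (1 + Real.log (n + 1)) * (j.divisors.card : ℝ) / T := by
  have h1 := log_Y_split h hx hy hj T
  have h2 := sum_small hd h hx hy T
  have h3 := large_sum h hx hy hj hn hT hdiv
  linarith
end

end Pool.Agent.GapB
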