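import Pool.Agent.GapB.Main

/-!
Asymptotics, and the structure of consecutive solutions.
-/

namespace Pool.Agent.GapB

open Finset

theorem log_le_pow {t : ℝ} (ht : 0 ≤ t) : Real.log t ≤ 100 * t ^ (1 / 100 : ℝ) := by
  have := Real.log_le_rpow_div ht (show (0 : ℝ) < 1 / 100 by norm_num)
  calc Real.log t ≤ t ^ (1 / 100 : ℝ) / (1 / 100) := this
    _ = 100 * t ^ (1 / 100 : ℝ) := by ring

/-- no large divisor `Q` of `4 n!` solves the Pell equation of `n + 1` -/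
theorem no_pell : ∃ N : ℕ, ∀ n P Q : ℕ, N ≤ n → 1 ≤ Q → P ^ 2 = (n + 1) * Q ^ 2 + 1 →
    Q ∣ 4 * n.factorial → (n * Q) ^ 2 < 4 * n.factorial := by
  obtain ⟨C, hC, hup⟩ := pell_upper
  obtain ⟨C₂, hC₂, hdiv⟩ := Pool.Agent.K3N.card_divisors_le (1 / 100) (by norm_num)
  set C₄ : ℝ := 200 + 4 * (1 + 2 * C) + 91800 * C₂ with hC₄
  have hC₄0 : 0 < C₄ := by positivity
  obtain ⟨N, hN⟩ := exists_nat_gt (C₄ ^ (20 : ℝ) + Real.exp 8)
  refine ⟨N, ?_⟩
  intro n P Q hn hQ hPQ hQd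
  by_contra hcon
  push Not at hcon
  have hnN : C₄ ^ (20 : ℝ) + Real.exp 8 < n := lt_of_lt_of_le hN (by exact_mod_cast hn)
  have hC₄20 : 0 < C₄ ^ (20 : ℝ) := by positivity
  have hexp8 : Real.exp 8 < n := by linarith
  have hn8 : (8 : ℝ) < n := by
    have := Real.add_one_le_exp (8 : ℝ)
    linarith
  have hn8' : 8 < n := by exact_mod_cast hn8
  have hn0 : (0 : ℝ) < n := by linarith
  have hn1 : (1 : ℝ) ≤ n := by linarith
  have hlogn : 8 < Real.log n := by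
    rw [Real.lt_log_iff_exp_lt hn0]; exact hexp8
  obtain ⟨x, j, hx1, hj1, hx, hj2, hmain⟩ := hup (n + 1) n P Q (by omega) (by omega) hQ hPQ hQd
  -- the bound for `j`
  have hjn : j ≤ n ^ 2 := by
    by_contra h
    push Not at h
    have h1 : 2 ^ (n ^ 2) ≤ 2 ^ (j - 1) := Nat.pow_le_pow_right (by norm_num) (by omega)
    have h2 : Q ≤ 4 * n.factorial := Nat.le_of_dvd (by have := n.factorial_pos; omega) hQd
    have h3 := four_fact_lt (show 3 ≤ n by omega)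
    omega
  have hj0 : (0 : ℝ) < j := by exact_mod_cast hj1
  have hjr : (j : ℝ) ≤ (n : ℝ) ^ 2 := by exact_mod_cast hjn
  -- choice of `T`
  set T := ⌈(n : ℝ) ^ (1 / 10 : ℝ)⌉₊ with hT
  have hT1 : (n : ℝ) ^ (1 / 10 : ℝ) ≤ T := Nat.le_ceil _
  have hn10 : 1 < (n : ℝ) ^ (1 / 10 : ℝ) := Real.one_lt_rpow (by linarith) (by norm_num)
  have hT2 : 2 ≤ T := by
    have h1 : (1 : ℝ) < T := lt_of_lt_of_le hn10 hT1
    have h2 : 1 < T := by exact_mod_cast h1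
    omega
  have hT3 : (T : ℝ) ≤ 2 * (n : ℝ) ^ (1 / 10 : ℝ) := by
    have := Nat.ceil_lt_add_one (show 0 ≤ (n : ℝ) ^ (1 / 10 : ℝ) by positivity)
    linarith
  have hT0 : (0 : ℝ) < T := by linarith
  have hm := hmain T hT2
  -- first term
  have h95 : (n : ℝ) ^ (1 / 100 : ℝ) ≤ (n : ℝ) ^ (19 / 20 : ℝ) :=
    Real.rpow_le_rpow_of_exponent_le hn1 (by norm_num)
  have hlogn100 := log_le_pow hn0.le
  have t1 : Real.log j ≤ 200 * (n : ℝ) ^ (19 / 20 : ℝ) := by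
    calc Real.log j ≤ Real.log ((n : ℝ) ^ 2) := Real.log_le_log hj0 hjr
      _ = 2 * Real.log n := by rw [Real.log_pow]; norm_num
      _ ≤ 200 * (n : ℝ) ^ (19 / 20 : ℝ) := by linarith
  -- second term
  have hn34 : (1 : ℝ) ≤ (n : ℝ) ^ (3 / 4 : ℝ) := Real.one_le_rpow hn1 (by norm_num)
  have hlogx : Real.log (2 * x) ≤ (1 + 2 * C) * (n : ℝ) ^ (3 / 4 : ℝ) := by
    have hx0 : (x : ℝ) ≠ 0 := by
      have : (1 : ℝ) ≤ x := by exact_mod_cast hx1
      linarith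
    rw [Real.log_mul (by norm_num) hx0]
    have h1 : Real.log 2 ≤ 1 := by
      have := Real.log_two_lt_d9
      linarith
    have h2 : (((n + 1 : ℕ) : ℝ)) ^ (3 / 4 : ℝ) ≤ 2 * (n : ℝ) ^ (3 / 4 : ℝ) := by
      calc (((n + 1 : ℕ) : ℝ)) ^ (3 / 4 : ℝ) ≤ (2 * (n : ℝ)) ^ (3 / 4 : ℝ) := by
            apply Real.rpow_le_rpow (Nat.cast_nonneg _) _ (by norm_num)
            push_cast; linarith
        _ = (2 : ℝ) ^ (3 / 4 : ℝ) * (n : ℝ) ^ (3 / 4 : ℝ) :=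
            Real.mul_rpow (by norm_num) hn0.le
        _ ≤ 2 * (n : ℝ) ^ (3 / 4 : ℝ) := by
            have : (2 : ℝ) ^ (3 / 4 : ℝ) ≤ (2 : ℝ) ^ (1 : ℝ) :=
              Real.rpow_le_rpow_of_exponent_le (by norm_num) (by norm_num)
            rw [Real.rpow_one] at this
            exact mul_le_mul_of_nonneg_right this (by positivity)
    have h3 := mul_le_mul_of_nonneg_left h2 hC.le
    linarith
  have hlogx0 : 0 ≤ Real.log (2 * (x : ℝ)) := by
    apply Real.log_nonneg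
    have : (1 : ℝ) ≤ x := by exact_mod_cast hx1
    linarith
  have t2 : (T : ℝ) ^ 2 * Real.log (2 * x) ≤
      4 * (1 + 2 * C) * (n : ℝ) ^ (19 / 20 : ℝ) := by
    have h1 : (T : ℝ) ^ 2 ≤ 4 * (n : ℝ) ^ (1 / 5 : ℝ) := by
      calc (T : ℝ) ^ 2 ≤ (2 * (n : ℝ) ^ (1 / 10 : ℝ)) ^ 2 := by gcongr
        _ = 4 * (n : ℝ) ^ (1 / 5 : ℝ) := by
          rw [mul_pow, ← Real.rpow_natCast ((n : ℝ) ^ (1 / 10 : ℝ)), ← Real.rpow_mul hn0.le]
          norm_num
    calc (T : ℝ) ^ 2 * Real.log (2 * x)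
        ≤ (4 * (n : ℝ) ^ (1 / 5 : ℝ)) * ((1 + 2 * C) * (n : ℝ) ^ (3 / 4 : ℝ)) :=
          mul_le_mul h1 hlogx hlogx0 (by positivity)
      _ = 4 * (1 + 2 * C) * ((n : ℝ) ^ (1 / 5 : ℝ) * (n : ℝ) ^ (3 / 4 : ℝ)) := by ring
      _ = 4 * (1 + 2 * C) * (n : ℝ) ^ (19 / 20 : ℝ) := by
          rw [← Real.rpow_add hn0]; norm_num
  -- third term
  have hone : (1 : ℝ) ≤ (n : ℝ) ^ (1 / 100 : ℝ) := Real.one_le_rpow hn1 (by norm_num)
  have hl1 : 1 + Real.log ((n : ℝ) + 1) ≤ 102 * (n : ℝ) ^ (1 / 100 : ℝ) := by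
    have h1 : Real.log ((n : ℝ) + 1) ≤ Real.log (2 * n) :=
      Real.log_le_log (by linarith) (by linarith)
    rw [Real.log_mul (by norm_num) hn0.ne'] at h1
    have h2 : Real.log 2 ≤ 1 := by
      have := Real.log_two_lt_d9
      linarith
    linarith
  have hl10 : 0 ≤ 1 + Real.log ((n : ℝ) + 1) := by
    have : 0 ≤ Real.log ((n : ℝ) + 1) := Real.log_nonneg (by linarith)
    linarith
  have hτ : (j.divisors.card : ℝ) ≤ C₂ * (n : ℝ) ^ (1 / 50 : ℝ) := by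
    refine (hdiv j (by omega)).trans ?_
    have : (j : ℝ) ^ (1 / 100 : ℝ) ≤ (n : ℝ) ^ (1 / 50 : ℝ) := by
      calc (j : ℝ) ^ (1 / 100 : ℝ) ≤ ((n : ℝ) ^ 2) ^ (1 / 100 : ℝ) :=
            Real.rpow_le_rpow hj0.le hjr (by norm_num)
        _ = (n : ℝ) ^ (1 / 50 : ℝ) := by
            rw [← Real.rpow_natCast, ← Real.rpow_mul hn0.le]; norm_num
    exact mul_le_mul_of_nonneg_left this (by linarith)
  have t3 : 9 * n * Real.log n * (1 + Real.log (n + 1)) * (j.divisors.card : ℝ) / T ≤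
      91800 * C₂ * (n : ℝ) ^ (19 / 20 : ℝ) := by
    rw [div_le_iff₀ hT0]
    calc 9 * n * Real.log n * (1 + Real.log (n + 1)) * (j.divisors.card : ℝ)
        ≤ 9 * n * (100 * (n : ℝ) ^ (1 / 100 : ℝ)) * (102 * (n : ℝ) ^ (1 / 100 : ℝ)) *
          (C₂ * (n : ℝ) ^ (1 / 50 : ℝ)) := by
          apply mul_le_mul _ hτ (Nat.cast_nonneg _) (by positivity)
          apply mul_le_mul _ hl1 hl10 (by positivity)
          apply mul_le_mul_of_nonneg_left hlogn100 (by positivity)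
      _ = 91800 * C₂ * (n * ((n : ℝ) ^ (1 / 100 : ℝ) * (n : ℝ) ^ (1 / 100 : ℝ) *
            (n : ℝ) ^ (1 / 50 : ℝ))) := by ring
      _ = 91800 * C₂ * (n : ℝ) ^ (26 / 25 : ℝ) := by
          congr 1
          rw [← Real.rpow_add hn0, ← Real.rpow_add hn0]
          nth_rewrite 1 [← Real.rpow_one (n : ℝ)]
          rw [← Real.rpow_add hn0]
          norm_num
      _ ≤ 91800 * C₂ * (n : ℝ) ^ (21 / 20 : ℝ) := by
          have : (n : ℝ) ^ (26 / 25 : ℝ) ≤ (n : ℝ) ^ (21 / 20 : ℝ) :=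
            Real.rpow_le_rpow_of_exponent_le hn1 (by norm_num)
          gcongr
      _ = 91800 * C₂ * (n : ℝ) ^ (19 / 20 : ℝ) * (n : ℝ) ^ (1 / 10 : ℝ) := by
          rw [mul_assoc (91800 * C₂), ← Real.rpow_add hn0]; norm_num
      _ ≤ 91800 * C₂ * (n : ℝ) ^ (19 / 20 : ℝ) * T := by gcongr
  -- lower bound
  have hQ0 : (0 : ℝ) < Q := by exact_mod_cast hQ
  have hlow : (n : ℝ) ≤ Real.log Q := by
    have h1 : (n : ℝ) ^ n / n.factorial ≤ Real.exp n :=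
      Real.pow_div_factorial_le_exp (n : ℝ) hn0.le n
    have hf0 : (0 : ℝ) < n.factorial := by exact_mod_cast n.factorial_pos
    have h2 : n * Real.log n - Real.log n.factorial ≤ n := by
      have h3 : Real.log ((n : ℝ) ^ n / n.factorial) ≤ Real.log (Real.exp n) :=
        Real.log_le_log (by positivity) h1
      rw [Real.log_exp, Real.log_div (by positivity) hf0.ne', Real.log_pow] at h3
      exact h3
    have h4 : (4 : ℝ) * n.factorial ≤ ((n : ℝ) * Q) ^ 2 := by exact_mod_cast hcon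
    have h5 : Real.log (n.factorial : ℝ) ≤ 2 * (Real.log n + Real.log Q) := by
      calc Real.log (n.factorial : ℝ) ≤ Real.log (((n : ℝ) * Q) ^ 2) :=
            Real.log_le_log hf0 (by linarith)
        _ = 2 * (Real.log n + Real.log Q) := by
          rw [Real.log_pow, Real.log_mul hn0.ne' hQ0.ne']; norm_num
    have h6 : Real.log n ≤ n := (Real.log_le_sub_one_of_pos hn0).trans (by linarith)
    have h7 : (n : ℝ) * 8 ≤ n * Real.log n := mul_le_mul_of_nonneg_left hlogn.le hn0.le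
    linarith
  -- conclusion
  have hfin : (n : ℝ) ≤ C₄ * (n : ℝ) ^ (19 / 20 : ℝ) := by
    calc (n : ℝ) ≤ Real.log Q := hlow
      _ ≤ _ := hm
      _ ≤ 200 * (n : ℝ) ^ (19 / 20 : ℝ) + 4 * (1 + 2 * C) * (n : ℝ) ^ (19 / 20 : ℝ) +
          91800 * C₂ * (n : ℝ) ^ (19 / 20 : ℝ) := add_le_add (add_le_add t1 t2) t3
      _ = C₄ * (n : ℝ) ^ (19 / 20 : ℝ) := by rw [hC₄]; ring
  have h20 : (n : ℝ) ^ (1 / 20 : ℝ) ≤ C₄ := by
    have h1 : (n : ℝ) = (n : ℝ) ^ (1 / 20 : ℝ) * (n : ℝ) ^ (19 / 20 : ℝ) := by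
      rw [← Real.rpow_add hn0]; norm_num
    have h2 : (0 : ℝ) < (n : ℝ) ^ (19 / 20 : ℝ) := by positivity
    by_contra h3
    push Not at h3
    have h4 := mul_lt_mul_of_pos_right h3 h2
    rw [← h1] at h4
    linarith
  have h21 : (n : ℝ) ≤ C₄ ^ (20 : ℝ) := by
    calc (n : ℝ) = ((n : ℝ) ^ (1 / 20 : ℝ)) ^ (20 : ℝ) := by
          rw [← Real.rpow_mul hn0.le]; norm_num
      _ ≤ C₄ ^ (20 : ℝ) := Real.rpow_le_rpow (by positivity) h20 (by norm_num)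
  have := Real.exp_pos (8 : ℝ)
  linarith

/-- the Pell solution attached to two consecutive solutions -/
theorem pell_of_pair {n a b : ℕ} (hn : 4 ≤ n) (ha : n.factorial = a * (a + 1))
    (hb : (n + 1).factorial = b * (b + 1)) (σ : ℤ) (hσ : σ = 1 ∨ σ = -1)
    (hdiv : (n : ℤ) ∣ (2 * b + 1) - σ * (2 * a + 1)) :
    ∃ P Q : ℕ, 1 ≤ Q ∧ P ^ 2 = (n + 1) * Q ^ 2 + 1 ∧ Q ∣ 4 * n.factorial ∧
      4 * n.factorial ≤ (n * Q) ^ 2 := by
  obtain ⟨Y, hY⟩ := hdiv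
  set A : ℤ := 2 * a + 1 with hA
  have hA2 : A ^ 2 = 4 * (n.factorial : ℤ) + 1 := by
    rw [ha, hA]; push_cast; ring
  have hB : (2 * (b : ℤ) + 1) = σ * A + n * Y := by linarith
  have hB2 : (2 * (b : ℤ) + 1) ^ 2 = 4 * ((n + 1 : ℕ).factorial : ℤ) + 1 := by
    rw [hb]; push_cast; ring
  rw [Nat.factorial_succ] at hB2
  push_cast at hB2
  have hrel : (2 * (b : ℤ) + 1) ^ 2 = ((n : ℤ) + 1) * A ^ 2 - n := by
    rw [hB2, hA2]; ring
  have hσ2 : σ ^ 2 = 1 := by rcases hσ with h | h <;> rw [h] <;> norm_num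
  have hn0 : (n : ℤ) ≠ 0 := by exact_mod_cast (show n ≠ 0 by omega)
  have hnpos : (0 : ℤ) < n := by exact_mod_cast (show 0 < n by omega)
  have hn4 : (4 : ℤ) ≤ n := by exact_mod_cast hn
  -- Y (2 σ A + n Y) = A² - 1
  have hprod : Y * (2 * σ * A + n * Y) = A ^ 2 - 1 := by
    apply mul_left_cancel₀ hn0
    rw [hB] at hrel
    linear_combination hrel - A ^ 2 * hσ2
  have hfpos : (0 : ℤ) < n.factorial := by exact_mod_cast n.factorial_pos
  have hA0 : 0 < A := by rw [hA]; positivity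
  have hBA : A < 2 * (b : ℤ) + 1 := by
    have h0 : 0 < (n : ℤ) * (A ^ 2 - 1) := mul_pos hnpos (by linarith)
    have h1 : A ^ 2 < (2 * (b : ℤ) + 1) ^ 2 := by
      rw [hrel]; linarith
    exact lt_of_pow_lt_pow_left₀ 2 (by positivity) h1
  have hY0 : 0 < Y := by
    have h1 : 0 < (n : ℤ) * Y := by
      rw [← hY]
      rcases hσ with h | h <;> rw [h] <;> linarith
    exact (mul_pos_iff_of_pos_left hnpos).1 h1
  have hge : A ≤ n * Y := by
    by_contra hlt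
    push Not at hlt
    have h1 : Y * (2 * σ * A + n * Y) ≤ Y * (3 * A) := by
      apply mul_le_mul_of_nonneg_left _ hY0.le
      rcases hσ with h | h <;> rw [h] <;> linarith
    rw [hprod] at h1
    have h2 : (n : ℤ) * (A ^ 2 - 1) ≤ n * (Y * (3 * A)) := by gcongr
    have h3 : (n : ℤ) * (Y * (3 * A)) ≤ A * (3 * A) := by
      rw [← mul_assoc]
      exact mul_le_mul_of_nonneg_right hlt.le (by linarith)
    have h4 : (4 : ℤ) * (A ^ 2 - 1) ≤ n * (A ^ 2 - 1) :=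
      mul_le_mul_of_nonneg_right hn4 (by linarith)
    have h5 : A * (3 * A) = 3 * A ^ 2 := by ring
    linarith
  refine ⟨(σ * A - Y).natAbs, Y.natAbs, Int.natAbs_pos.2 hY0.ne', ?_, ?_, ?_⟩
  · zify
    rw [sq_abs, sq_abs]
    linear_combination A ^ 2 * hσ2 - hprod
  · rw [← Int.natCast_dvd_natCast]
    rw [Int.natCast_natAbs, abs_dvd]
    push_cast
    refine ⟨2 * σ * A + n * Y, ?_⟩
    rw [hprod, hA2]; ring
  · zify
    rw [abs_of_pos hY0]
    have h1 : A ^ 2 ≤ (n * Y) ^ 2 := by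
      apply pow_le_pow_left₀ hA0.le hge
    linarith

end Pool.Agent.GapB
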