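import Mathlib
import Pool.Agent.K3N.Div

/-!
A nontrivial solution of `x² = ρ y² + 1` with `log x ≤ C ρ^(3/4)`.
-/

namespace Pool.Agent.GapB

open Finset

/-- Dirichlet approximants of `√ρ` -/
theorem approx (ρ : ℕ) (hρ : 2 ≤ ρ) (hns : ¬ IsSquare ρ) (i : ℕ) :
    ∃ p q : ℕ, 1 ≤ q ∧ q ≤ (2 * Nat.sqrt ρ + 3) ^ i ∧ p ≤ (2 * Nat.sqrt ρ + 3) ^ (i + 1) ∧
      Nat.Coprime p q ∧ |(p : ℝ) - q * √(ρ : ℝ)| < 1 / ((2 * Nat.sqrt ρ + 3 : ℕ) : ℝ) ^ i ∧
      ((p : ℤ) ^ 2 - ρ * (q : ℤ) ^ 2).natAbs < 2 * Nat.sqrt ρ + 3 ∧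
      (p : ℤ) ^ 2 - ρ * (q : ℤ) ^ 2 ≠ 0 ∧
      1 / ((2 * Nat.sqrt ρ + 3 : ℕ) : ℝ) ^ (i + 1) ≤ |(p : ℝ) - q * √(ρ : ℝ)| := by
  set s := Nat.sqrt ρ with hs
  set M := 2 * s + 3 with hM
  have hM1 : 1 ≤ M := by omega
  have hMi : 0 < M ^ i := Nat.pos_of_ne_zero (pow_ne_zero _ (by omega))
  have hMr : (1 : ℝ) ≤ M := by exact_mod_cast hM1
  have hMir : (1 : ℝ) ≤ (M : ℝ) ^ i := one_le_pow₀ hMr
  have hρr : (2 : ℝ) ≤ ρ := by exact_mod_cast hρ
  set w := √(ρ : ℝ) with hw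
  have hw2 : w ^ 2 = ρ := Real.sq_sqrt (by linarith)
  have hw1 : (1.4 : ℝ) ≤ w := by
    apply Real.le_sqrt_of_sq_le
    norm_num
    linarith
  have hws : w < s + 1 := by
    rw [hw, Real.sqrt_lt' (by positivity)]
    have := Nat.lt_succ_sqrt ρ
    have h2 : ρ < (s + 1) ^ 2 := by rw [sq]; exact this
    exact_mod_cast h2
  have hwM : 2 * w + 1 < M := by rw [hM]; push_cast; linarith
  obtain ⟨r, hr1, hr2⟩ := Real.exists_rat_abs_sub_le_and_den_le w hMi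
  have hden : (1 : ℝ) ≤ r.den := by exact_mod_cast r.den_pos
  push_cast at hr1
  have hrc : (r : ℝ) = (r.num : ℝ) / r.den := by exact_mod_cast (Rat.num_div_den r).symm
  have hdiff : |(r.num : ℝ) - r.den * w| ≤ 1 / ((M : ℝ) ^ i + 1) := by
    have h1 : (r.num : ℝ) - r.den * w = -(r.den * (w - r)) := by
      rw [hrc]; field_simp; ring
    rw [h1, abs_neg, abs_mul, abs_of_pos (by linarith : (0 : ℝ) < r.den)]
    calc (r.den : ℝ) * |w - r| ≤ r.den * (1 / (((M : ℝ) ^ i + 1) * r.den)) := by gcongr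
      _ = 1 / ((M : ℝ) ^ i + 1) := by field_simp
  have hlt1 : 1 / ((M : ℝ) ^ i + 1) ≤ 1 / 2 := by
    apply one_div_le_one_div_of_le (by norm_num); linarith
  have hnumpos : (0 : ℝ) < r.num := by
    have := (abs_le.1 hdiff).1
    nlinarith
  have hnum : 0 < r.num := by exact_mod_cast hnumpos
  obtain ⟨p, hp⟩ : ∃ p : ℕ, (p : ℤ) = r.num := ⟨r.num.toNat, Int.toNat_of_nonneg hnum.le⟩
  have hpr : (p : ℝ) = r.num := by exact_mod_cast congrArg (Int.cast : ℤ → ℝ) hp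
  set q := r.den with hq
  have hdenle : (q : ℝ) ≤ (M : ℝ) ^ i := by exact_mod_cast hr2
  rw [← hpr] at hdiff
  have hcop : Nat.Coprime p q := by
    have := r.reduced
    rwa [← hp, Int.natAbs_natCast] at this
  have hN0 : (p : ℤ) ^ 2 - ρ * (q : ℤ) ^ 2 ≠ 0 := by
    intro h0
    have h1 : p ^ 2 = ρ * q ^ 2 := by zify; linarith
    have h2 : q ∣ p := (Nat.pow_dvd_pow_iff two_ne_zero).1 ⟨ρ, by rw [h1]; ring⟩
    obtain ⟨c, rfl⟩ := h2
    apply hns
    refine ⟨c, ?_⟩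
    have hq2 : 0 < q ^ 2 := pow_pos r.den_pos 2
    have h3 : q ^ 2 * (c * c) = q ^ 2 * ρ := by rw [← mul_comm ρ, ← h1]; ring
    exact (Nat.eq_of_mul_eq_mul_left hq2 h3).symm
  have hNr : ((((p : ℤ) ^ 2 - ρ * (q : ℤ) ^ 2 : ℤ)) : ℝ) = ((p : ℝ) - q * w) * (p + q * w) := by
    push_cast; rw [← hw2]; ring
  have hsum : (p : ℝ) + q * w ≤ 2 * q * w + 1 / ((M : ℝ) ^ i + 1) := by
    have := (abs_le.1 hdiff).2
    linarith
  have hsum0 : 0 < (p : ℝ) + q * w := by rw [hpr]; positivity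
  have hqw : (q : ℝ) * w ≤ (M : ℝ) ^ i * w := by gcongr
  refine ⟨p, q, r.den_pos, hr2, ?_, hcop, ?_, ?_, hN0, ?_⟩
  · have h1 : (p : ℝ) ≤ (M : ℝ) ^ (i + 1) := by
      rw [pow_succ]
      have := (abs_le.1 hdiff).2
      nlinarith
    exact_mod_cast h1
  · refine lt_of_le_of_lt hdiff ?_
    apply one_div_lt_one_div_of_lt (by positivity)
    linarith
  · have h1 : (((((p : ℤ) ^ 2 - ρ * (q : ℤ) ^ 2).natAbs : ℕ)) : ℝ) < (M : ℝ) := by
      have e1 : (((((p : ℤ) ^ 2 - ρ * (q : ℤ) ^ 2).natAbs : ℕ)) : ℝ)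
          = |((((p : ℤ) ^ 2 - ρ * (q : ℤ) ^ 2 : ℤ)) : ℝ)| := by
        rw [Nat.cast_natAbs, Int.cast_abs]
      rw [e1, hNr, abs_mul, abs_of_pos hsum0]
      have h2 : |(p : ℝ) - q * w| * (p + q * w) ≤
          1 / ((M : ℝ) ^ i + 1) * (2 * ((M : ℝ) ^ i * w) + 1) := by
        apply mul_le_mul hdiff _ hsum0.le (by positivity)
        have : 1 / ((M : ℝ) ^ i + 1) ≤ 1 := by linarith
        nlinarith
      refine lt_of_le_of_lt h2 ?_
      rw [one_div, inv_mul_lt_iff₀ (by positivity)]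
      nlinarith
    exact_mod_cast h1
  · have h1 : (1 : ℝ) ≤ |((((p : ℤ) ^ 2 - ρ * (q : ℤ) ^ 2 : ℤ)) : ℝ)| := by
      rw [← Int.cast_abs]
      exact_mod_cast Int.one_le_abs hN0
    rw [hNr, abs_mul, abs_of_pos hsum0] at h1
    have h2 : (p : ℝ) + q * w ≤ (M : ℝ) ^ (i + 1) := by
      rw [pow_succ]
      nlinarith
    have h3 : (0 : ℝ) < (M : ℝ) ^ (i + 1) := by positivity
    rw [div_le_iff₀ h3]
    exact h1.trans (mul_le_mul_of_nonneg_left h2 (abs_nonneg _))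

/-- a residue class attached to an approximant -/
theorem exists_class {ρ p q : ℕ} (hcop : Nat.Coprime p q)
    (hN : (p : ℤ) ^ 2 - ρ * (q : ℤ) ^ 2 ≠ 0) :
    ∃ t : ℕ, t < ((p : ℤ) ^ 2 - ρ * (q : ℤ) ^ 2).natAbs ∧
      ((p : ℤ) ^ 2 - ρ * (q : ℤ) ^ 2) ∣ (p : ℤ) - t * q ∧
      ((p : ℤ) ^ 2 - ρ * (q : ℤ) ^ 2) ∣ (t : ℤ) ^ 2 - ρ := by
  set N := (p : ℤ) ^ 2 - ρ * (q : ℤ) ^ 2 with hNdef
  have h1 : IsCoprime (p : ℤ) (q : ℤ) := Nat.isCoprime_iff_coprime.2 hcop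
  have h2 : IsCoprime (q : ℤ) N := by
    have h3 : IsCoprime (q : ℤ) ((p : ℤ) ^ 2) := (h1.pow_left (m := 2)).symm
    have h4 := h3.add_mul_left_right (-(ρ : ℤ) * q)
    have h5 : (p : ℤ) ^ 2 + q * (-(ρ : ℤ) * q) = N := by rw [hNdef]; ring
    rwa [h5] at h4
  obtain ⟨u, v, huv⟩ := h2
  have hnn := Int.emod_nonneg ((p : ℤ) * u) hN
  have hlt := Int.emod_lt_abs ((p : ℤ) * u) hN
  obtain ⟨t, ht⟩ := Int.eq_ofNat_of_zero_le hnn
  have hmod : N ∣ (p : ℤ) * u - t := by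
    rw [← ht]
    exact Int.dvd_self_sub_emod
  have hd1 : N ∣ (p : ℤ) - t * q := by
    have h6 : (p : ℤ) - t * q = N * (p * v) + (p * u - t) * q := by
      linear_combination (-(p : ℤ)) * huv
    rw [h6]
    exact dvd_add (dvd_mul_right _ _) (dvd_mul_of_dvd_left hmod _)
  refine ⟨t, ?_, hd1, ?_⟩
  · rw [ht] at hlt
    zify
    exact hlt
  · have h7 : N ∣ ((t : ℤ) ^ 2 - ρ) * (q : ℤ) ^ 2 := by
      have h8 : ((t : ℤ) ^ 2 - ρ) * (q : ℤ) ^ 2 = N - ((p : ℤ) - t * q) * (p + t * q) := by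
        rw [hNdef]; ring
      rw [h8]
      exact dvd_sub (dvd_refl _) (dvd_mul_of_dvd_left hd1 _)
    have h9 : IsCoprime N ((q : ℤ) ^ 2) := (IsCoprime.pow_left (m := 2) ⟨u, v, huv⟩).symm
    exact h9.dvd_of_dvd_mul_right h7

theorem unit_count (ρ : ℕ) (hρ : 2 ≤ ρ) (hns : ¬ IsSquare ρ) :
    ∃ x y : ℕ, 1 ≤ y ∧ x ^ 2 = ρ * y ^ 2 + 1 ∧
      x ≤ (2 * Nat.sqrt ρ + 3) ^ (4 * (∑ t ∈ range (2 * Nat.sqrt ρ + 3),
        (((t : ℤ) ^ 2 - ρ).natAbs.divisors.card)) + 2) := by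
  set M := 2 * Nat.sqrt ρ + 3 with hM
  have hM1 : 1 ≤ M := by omega
  choose p q hq1 hq2 hp2 hcop hlt hN1 hN0 hge using approx ρ hρ hns
  have hcl := fun i => exists_class (hcop i) (hN0 i)
  choose t ht1 ht2 ht3 using hcl
  set N : ℕ → ℤ := fun i => (p i : ℤ) ^ 2 - ρ * (q i : ℤ) ^ 2 with hNdef
  classical
  set F := ((range M).sigma (fun t => ((t : ℤ) ^ 2 - ρ).natAbs.divisors)) ×ˢ
    (Finset.univ : Finset Bool) with hF
  have hFcard : F.card = 2 * ∑ t ∈ range M, (((t : ℤ) ^ 2 - ρ).natAbs.divisors.card) := by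
    rw [hF, Finset.card_product, Finset.card_sigma]
    simp [mul_comm]
  have hmaps : ∀ i ∈ range (F.card + 1),
      ((⟨t i, (N i).natAbs⟩, decide (0 < N i)) : (Σ _ : ℕ, ℕ) × Bool) ∈ F := by
    intro i _
    rw [hF, Finset.mem_product]
    refine ⟨?_, Finset.mem_univ _⟩
    rw [Finset.mem_sigma]
    refine ⟨Finset.mem_range.2 ((ht1 i).trans (hN1 i)), ?_⟩
    rw [Nat.mem_divisors]
    refine ⟨Int.natAbs_dvd_natAbs.2 (ht3 i), ?_⟩
    rw [Int.natAbs_ne_zero]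
    intro h0
    apply hns
    refine ⟨t i, ?_⟩
    zify
    linarith
  obtain ⟨i, hi, k, hk, hik, heq⟩ := Finset.exists_ne_map_eq_of_card_lt_of_maps_to
    (by rw [Finset.card_range]; omega) hmaps
  have key : ∀ i k : ℕ, i ∈ range (F.card + 1) → k ∈ range (F.card + 1) → i < k →
      t i = t k → N i = N k → ∃ x y : ℕ, 1 ≤ y ∧ x ^ 2 = ρ * y ^ 2 + 1 ∧
      x ≤ M ^ (4 * (∑ t ∈ range M, (((t : ℤ) ^ 2 - ρ).natAbs.divisors.card)) + 2) := by
    intro i k hi hk hik htt hNN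
    rw [Finset.mem_range] at hi hk
    have hNi0 : N i ≠ 0 := hN0 i
    have e1 : N i ∣ (p i : ℤ) - t i * q i := ht2 i
    have e2 : N i ∣ (p k : ℤ) - t i * q k := by rw [hNN, htt]; exact ht2 k
    have e3 : N i ∣ (t i : ℤ) ^ 2 - ρ := ht3 i
    obtain ⟨Y, hY⟩ : N i ∣ (q i : ℤ) * p k - p i * q k := by
      have : (q i : ℤ) * p k - p i * q k
          = q i * ((p k : ℤ) - t i * q k) - q k * ((p i : ℤ) - t i * q i) := by ring
      rw [this]
      exact dvd_sub (dvd_mul_of_dvd_right e2 _) (dvd_mul_of_dvd_right e1 _)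
    obtain ⟨X, hX⟩ : N i ∣ (p i : ℤ) * p k - ρ * (q i * q k) := by
      have : (p i : ℤ) * p k - ρ * (q i * q k)
          = p i * ((p k : ℤ) - t i * q k) + t i * q k * ((p i : ℤ) - t i * q i)
            + (q i * q k) * ((t i : ℤ) ^ 2 - ρ) := by ring
      rw [this]
      exact dvd_add (dvd_add (dvd_mul_of_dvd_right e2 _) (dvd_mul_of_dvd_right e1 _))
        (dvd_mul_of_dvd_right e3 _)
    have hpell : X ^ 2 - ρ * Y ^ 2 = 1 := by
      have h1 : N i ^ 2 * (X ^ 2 - ρ * Y ^ 2) = N i ^ 2 * 1 := by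
        have h2 : N i ^ 2 * (X ^ 2 - ρ * Y ^ 2) = (N i * X) ^ 2 - ρ * (N i * Y) ^ 2 := by ring
        rw [h2, ← hX, ← hY]
        have h3 : N i ^ 2 * 1 = N i * N k := by rw [← hNN]; ring
        rw [h3]
        simp only [hNdef]
        ring
      exact mul_left_cancel₀ (pow_ne_zero 2 hNi0) h1
    have hY0 : Y ≠ 0 := by
      intro h0
      rw [h0, mul_zero] at hY
      have h1 : q i * p k = p i * q k := by zify; linarith
      have h2 : q i ∣ q k := by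
        have : q i ∣ p i * q k := ⟨p k, h1.symm⟩
        exact (Nat.Coprime.dvd_of_dvd_mul_left (hcop i).symm this)
      have h3 : q k ∣ q i := by
        have : q k ∣ p k * q i := ⟨p i, by rw [mul_comm, h1, mul_comm]⟩
        exact (Nat.Coprime.dvd_of_dvd_mul_left (hcop k).symm this)
      have h4 : q i = q k := Nat.dvd_antisymm h2 h3
      have h5 : p i = p k := by
        rw [h4, mul_comm] at h1
        exact (Nat.eq_of_mul_eq_mul_right (hq1 k) h1).symm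
      have h6 := hlt k
      have h7 := hge i
      rw [h4, h5] at h7
      have h8 : 1 / ((M : ℕ) : ℝ) ^ k ≤ 1 / ((M : ℕ) : ℝ) ^ (i + 1) := by
        apply one_div_le_one_div_of_le (by positivity)
        exact pow_le_pow_right₀ (by exact_mod_cast hM1) hik
      linarith
    refine ⟨X.natAbs, Y.natAbs, Int.natAbs_pos.2 hY0, ?_, ?_⟩
    · zify
      rw [sq_abs, sq_abs]
      linarith
    · have hle : X.natAbs ≤ M ^ (i + k + 2) := by
        have h1 : X.natAbs ≤ (N i * X).natAbs := by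
          rw [Int.natAbs_mul]
          exact Nat.le_mul_of_pos_left _ (Int.natAbs_pos.2 hNi0)
        rw [← hX] at h1
        refine h1.trans ?_
        have h2 : p i * p k ≤ M ^ (i + k + 2) := by
          calc p i * p k ≤ M ^ (i + 1) * M ^ (k + 1) := Nat.mul_le_mul (hp2 i) (hp2 k)
            _ = M ^ (i + k + 2) := by rw [← pow_add]; ring_nf
        have hρM : ρ ≤ M ^ 2 := by
          have := Nat.lt_succ_sqrt ρ
          have h3 : ρ < (Nat.sqrt ρ + 1) * (Nat.sqrt ρ + 1) := this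
          rw [hM]; nlinarith
        have h3 : ρ * (q i * q k) ≤ M ^ (i + k + 2) := by
          calc ρ * (q i * q k) ≤ M ^ 2 * (M ^ i * M ^ k) :=
                Nat.mul_le_mul hρM (Nat.mul_le_mul (hq2 i) (hq2 k))
            _ = M ^ (i + k + 2) := by ring
        have h2' : (p i : ℤ) * p k ≤ M ^ (i + k + 2) := by exact_mod_cast h2
        have h3' : (ρ : ℤ) * (q i * q k) ≤ M ^ (i + k + 2) := by exact_mod_cast h3
        have h4 : |(p i : ℤ) * p k - ρ * (q i * q k)| ≤ ((M ^ (i + k + 2) : ℕ) : ℤ) := by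
          push_cast
          rw [abs_le]
          constructor
          · have : (0 : ℤ) ≤ (p i : ℤ) * p k := by positivity
            linarith
          · have : (0 : ℤ) ≤ (ρ : ℤ) * (q i * q k) := by positivity
            linarith
        zify
        exact_mod_cast h4
      refine hle.trans (Nat.pow_le_pow_right hM1 ?_)
      omega
  have heq1 : t i = t k := by
    have := congrArg (fun z => z.1.1) heq
    simpa using this
  have heq2 : (N i).natAbs = (N k).natAbs := by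
    have h1 := congrArg Prod.fst heq
    simp only [Sigma.mk.injEq] at h1
    exact eq_of_heq h1.2
  have heq3 : (0 < N i) ↔ (0 < N k) := by
    have h1 := congrArg Prod.snd heq
    simpa using h1
  have heq4 : N i = N k := by
    have := hN0 i
    have := hN0 k
    omega
  rcases lt_or_gt_of_ne hik with h | h
  · exact key i k hi hk h heq1 heq4
  · exact key k i hk hi h heq1.symm heq4.symm

end Pool.Agent.GapB
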