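import Pool.Agent.GapB.Decomp
import Pool.Agent.GapB.Reg

/-!
Consecutive solutions with `n ∣ 2 (b - a)` or `n ∣ 2 (a + b + 1)`.
-/

namespace Pool.Agent.GapB

open Finset

theorem unit_bound : ∃ C : ℝ, 0 < C ∧ ∀ ρ : ℕ, 2 ≤ ρ → ¬ IsSquare ρ → ∃ x y : ℕ,
    1 ≤ y ∧ x ^ 2 = ρ * y ^ 2 + 1 ∧ Real.log x ≤ C * (ρ : ℝ) ^ (3 / 4 : ℝ) := by
  obtain ⟨C₁, hC₁, hdiv⟩ := Pool.Agent.K3N.card_divisors_le (1 / 10) (by norm_num)
  refine ⟨(4 * C₁ + 2) / (3 / 10) * (5 : ℝ) ^ (3 / 2 : ℝ), by positivity, ?_⟩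
  intro ρ hρ hns
  obtain ⟨x, y, hy, hxy, hx⟩ := unit_count ρ hρ hns
  refine ⟨x, y, hy, hxy, ?_⟩
  set s := Nat.sqrt ρ with hs
  set M := 2 * s + 3 with hM
  have hM1 : 1 ≤ M := by omega
  have hMr : (1 : ℝ) ≤ M := by exact_mod_cast hM1
  have hM0 : (0 : ℝ) < M := by linarith
  have hρr : (2 : ℝ) ≤ ρ := by exact_mod_cast hρ
  have hx1 : 1 ≤ x := by
    rcases Nat.eq_zero_or_pos x with h0 | h0
    · rw [h0] at hxy; simp at hxy
    · exact h0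
  set E := ∑ t ∈ range M, (((t : ℤ) ^ 2 - ρ).natAbs.divisors.card) with hE
  have hρM : ρ ≤ M ^ 2 := by
    have h3 : ρ < (Nat.sqrt ρ + 1) * (Nat.sqrt ρ + 1) := Nat.lt_succ_sqrt ρ
    rw [hM]; nlinarith
  have hEle : (E : ℝ) ≤ C₁ * (M : ℝ) ^ (6 / 5 : ℝ) := by
    rw [hE]
    push_cast
    have h1 : ∀ t ∈ range M, ((((t : ℤ) ^ 2 - ρ).natAbs.divisors.card : ℕ) : ℝ) ≤
        C₁ * (M : ℝ) ^ (1 / 5 : ℝ) := by
      intro t ht
      have htM := Finset.mem_range.1 ht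
      have hne : ((t : ℤ) ^ 2 - ρ).natAbs ≠ 0 := by
        rw [Int.natAbs_ne_zero]
        intro h0
        apply hns
        refine ⟨t, ?_⟩
        zify
        linarith
      refine (hdiv _ hne).trans ?_
      have h2 : ((t : ℤ) ^ 2 - ρ).natAbs ≤ M ^ 2 := by
        have h4 : t ^ 2 ≤ M ^ 2 := Nat.pow_le_pow_left htM.le 2
        have h5 : |(t : ℤ) ^ 2 - ρ| ≤ ((M ^ 2 : ℕ) : ℤ) := by
          rw [abs_le]
          have h6 : (t : ℤ) ^ 2 ≤ ((M ^ 2 : ℕ) : ℤ) := by exact_mod_cast h4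
          have h7 : (ρ : ℤ) ≤ ((M ^ 2 : ℕ) : ℤ) := by exact_mod_cast hρM
          have h8 : (0 : ℤ) ≤ (t : ℤ) ^ 2 := by positivity
          have h9 : (0 : ℤ) ≤ (ρ : ℤ) := by positivity
          constructor <;> linarith
        zify
        exact_mod_cast h5
      have h3 : (((t : ℤ) ^ 2 - ρ).natAbs : ℝ) ≤ (M : ℝ) ^ 2 := by exact_mod_cast h2
      have h4 : ((((t : ℤ) ^ 2 - ρ).natAbs : ℕ) : ℝ) ^ (1 / 10 : ℝ) ≤ (M : ℝ) ^ (1 / 5 : ℝ) := by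
        calc ((((t : ℤ) ^ 2 - ρ).natAbs : ℕ) : ℝ) ^ (1 / 10 : ℝ)
            ≤ ((M : ℝ) ^ 2) ^ (1 / 10 : ℝ) :=
              Real.rpow_le_rpow (Nat.cast_nonneg _) h3 (by norm_num)
          _ = (M : ℝ) ^ (1 / 5 : ℝ) := by
              rw [← Real.rpow_natCast, ← Real.rpow_mul hM0.le]; norm_num
      exact mul_le_mul_of_nonneg_left h4 (by linarith)
    refine (Finset.sum_le_sum h1).trans ?_
    rw [Finset.sum_const, Finset.card_range, nsmul_eq_mul]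
    apply le_of_eq
    have : (M : ℝ) ^ (6 / 5 : ℝ) = (M : ℝ) * (M : ℝ) ^ (1 / 5 : ℝ) := by
      rw [show (6 / 5 : ℝ) = 1 + 1 / 5 by norm_num, Real.rpow_add hM0, Real.rpow_one]
    rw [this]; ring
  have hlog : Real.log x ≤ (4 * E + 2) * Real.log M := by
    have h1 : (x : ℝ) ≤ (M : ℝ) ^ (4 * E + 2) := by exact_mod_cast hx
    calc Real.log x ≤ Real.log ((M : ℝ) ^ (4 * E + 2)) :=
          Real.log_le_log (by exact_mod_cast hx1) h1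
      _ = (4 * E + 2) * Real.log M := by rw [Real.log_pow]; push_cast; ring
  have hM65 : (1 : ℝ) ≤ (M : ℝ) ^ (6 / 5 : ℝ) := Real.one_le_rpow hMr (by norm_num)
  have hlogM : Real.log M ≤ (M : ℝ) ^ (3 / 10 : ℝ) / (3 / 10) :=
    Real.log_le_rpow_div hM0.le (by norm_num)
  have hlogM0 : 0 ≤ Real.log M := Real.log_nonneg hMr
  have hM5 : (M : ℝ) ≤ 5 * (ρ : ℝ) ^ (1 / 2 : ℝ) := by
    rw [← Real.sqrt_eq_rpow]
    have h1 : (s : ℝ) ≤ √(ρ : ℝ) := by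
      apply Real.le_sqrt_of_sq_le
      have : s * s ≤ ρ := Nat.sqrt_le ρ
      have h2 : s ^ 2 ≤ ρ := by rw [sq]; exact this
      exact_mod_cast h2
    have h2 : (1 : ℝ) ≤ √(ρ : ℝ) := by
      apply Real.le_sqrt_of_sq_le; linarith
    rw [hM]; push_cast; linarith
  have hfin : (M : ℝ) ^ (3 / 2 : ℝ) ≤ (5 : ℝ) ^ (3 / 2 : ℝ) * (ρ : ℝ) ^ (3 / 4 : ℝ) := by
    calc (M : ℝ) ^ (3 / 2 : ℝ) ≤ (5 * (ρ : ℝ) ^ (1 / 2 : ℝ)) ^ (3 / 2 : ℝ) :=
          Real.rpow_le_rpow hM0.le hM5 (by norm_num)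
      _ = (5 : ℝ) ^ (3 / 2 : ℝ) * (ρ : ℝ) ^ (3 / 4 : ℝ) := by
          rw [Real.mul_rpow (by norm_num) (by positivity), ← Real.rpow_mul (by positivity)]
          norm_num
  calc Real.log x ≤ (4 * E + 2) * Real.log M := hlog
    _ ≤ ((4 * C₁ + 2) * (M : ℝ) ^ (6 / 5 : ℝ)) * ((M : ℝ) ^ (3 / 10 : ℝ) / (3 / 10)) := by
        apply mul_le_mul _ hlogM hlogM0 (by positivity)
        nlinarith
    _ = (4 * C₁ + 2) / (3 / 10) * (M : ℝ) ^ (3 / 2 : ℝ) := by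
        have : (M : ℝ) ^ (3 / 2 : ℝ) = (M : ℝ) ^ (6 / 5 : ℝ) * (M : ℝ) ^ (3 / 10 : ℝ) := by
          rw [← Real.rpow_add hM0]; norm_num
        rw [this]; ring
    _ ≤ (4 * C₁ + 2) / (3 / 10) * ((5 : ℝ) ^ (3 / 2 : ℝ) * (ρ : ℝ) ^ (3 / 4 : ℝ)) := by
        gcongr
    _ = _ := by ring

/-- powers of a Pell solution -/
theorem sol_pow {d : ℕ} (a : Pell.Solution₁ (d : ℤ)) {x y : ℕ} (hx : (x : ℤ) = a.x)
    (hy : (y : ℤ) = a.y) (k : ℕ) :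
    (a ^ k).x = (X d x y k : ℤ) ∧ (a ^ k).y = (Y d x y k : ℤ) := by
  induction k with
  | zero => simp
  | succ k ih =>
    obtain ⟨h1, h2⟩ := ih
    rw [pow_succ, Pell.Solution₁.x_mul, Pell.Solution₁.y_mul, h1, h2, X_succ, Y_succ, ← hx, ← hy]
    constructor
    · push_cast; ring
    · push_cast; ring

/-- a solution `Y` of the Pell equation of `d` that divides `4 n!` -/
theorem pell_upper : ∃ C : ℝ, 0 < C ∧ ∀ d n P Q : ℕ, 2 ≤ d → 2 ≤ n → 1 ≤ Q →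
    P ^ 2 = d * Q ^ 2 + 1 → Q ∣ 4 * n.factorial → ∃ x j : ℕ, 1 ≤ x ∧ 1 ≤ j ∧
      Real.log x ≤ C * (d : ℝ) ^ (3 / 4 : ℝ) ∧ 2 ^ (j - 1) ≤ Q ∧
      ∀ T : ℕ, 2 ≤ T → Real.log Q ≤ Real.log j + (T : ℝ) ^ 2 * Real.log (2 * x) +
        9 * n * Real.log n * (1 + Real.log (n + 1)) * (j.divisors.card : ℝ) / T := by
  obtain ⟨C, hC, hub⟩ := unit_bound
  refine ⟨C, hC, ?_⟩
  intro d n P Q hd hn hQ hPQ hdiv
  have hns : ¬ IsSquare d := by
    rintro ⟨c, hc⟩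
    have h1 : P ^ 2 = (c * Q) ^ 2 + 1 := by rw [hPQ, hc]; ring
    have hc1 : 1 ≤ c := by
      rcases Nat.eq_zero_or_pos c with h0 | h0
      · subst h0; omega
      · exact h0
    have h2 : 1 ≤ c * Q := Nat.mul_pos hc1 hQ
    have h3 : c * Q < P := by
      by_contra h
      have := Nat.pow_le_pow_left (not_lt.1 h) 2
      omega
    have h4 : (c * Q + 1) ^ 2 ≤ P ^ 2 := Nat.pow_le_pow_left h3 2
    nlinarith
  have hnsZ : ¬ IsSquare (d : ℤ) := by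
    rwa [Int.isSquare_natCast_iff]
  have hd0 : (0 : ℤ) < d := by exact_mod_cast (show 0 < d by omega)
  obtain ⟨a, ha⟩ := Pell.IsFundamental.exists_of_not_isSquare hd0 hnsZ
  obtain ⟨x, hx⟩ := Int.eq_ofNat_of_zero_le ha.x_pos.le
  obtain ⟨y, hy⟩ := Int.eq_ofNat_of_zero_le ha.2.1.le
  have hx2 : 2 ≤ x := by
    have := ha.1
    rw [hx] at this
    exact_mod_cast this
  have hy1 : 1 ≤ y := by
    have := ha.2.1
    rw [hy] at this
    exact_mod_cast this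
  have hxy : x ^ 2 = d * y ^ 2 + 1 := by
    have := a.prop
    rw [hx, hy] at this
    zify
    linarith
  obtain ⟨x', y', hy', hxy', hlog⟩ := hub d hd hns
  have hpr : (x' : ℤ) ^ 2 - (d : ℤ) * (y' : ℤ) ^ 2 = 1 := by
    have : (x' : ℤ) ^ 2 = d * (y' : ℤ) ^ 2 + 1 := by exact_mod_cast hxy'
    linarith
  have hx'1 : 1 < x' := by
    by_contra h
    have h1 : x' ^ 2 ≤ 1 := by
      calc x' ^ 2 ≤ 1 ^ 2 := Nat.pow_le_pow_left (not_lt.1 h) 2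
        _ = 1 := by norm_num
    have h2 : 1 ≤ d * y' ^ 2 := Nat.mul_pos (by omega) (pow_pos hy' 2)
    omega
  have hle : x ≤ x' := by
    have h1 := ha.x_le_x (a := Pell.Solution₁.mk (x' : ℤ) (y' : ℤ) hpr)
      (by rw [Pell.Solution₁.x_mk]; exact_mod_cast hx'1)
    rw [Pell.Solution₁.x_mk, hx] at h1
    exact_mod_cast h1
  have hprQ : (P : ℤ) ^ 2 - (d : ℤ) * (Q : ℤ) ^ 2 = 1 := by
    have : (P : ℤ) ^ 2 = d * (Q : ℤ) ^ 2 + 1 := by exact_mod_cast hPQ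
    linarith
  have hP0 : 0 < P := by
    rcases Nat.eq_zero_or_pos P with h0 | h0
    · rw [h0] at hPQ; simp at hPQ
    · exact h0
  obtain ⟨j, hj⟩ := ha.eq_pow_of_nonneg (a := Pell.Solution₁.mk (P : ℤ) (Q : ℤ) hprQ)
    (by rw [Pell.Solution₁.x_mk]; exact_mod_cast hP0)
    (by rw [Pell.Solution₁.y_mk]; exact_mod_cast (Nat.zero_le Q))
  have hYj := (sol_pow a hx.symm hy.symm j).2
  rw [← hj, Pell.Solution₁.y_mk] at hYj
  have hQY : Q = Y d x y j := by exact_mod_cast hYj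
  have hj1 : 1 ≤ j := by
    rcases Nat.eq_zero_or_pos j with h0 | h0
    · rw [h0, Y_zero] at hQY; omega
    · exact h0
  refine ⟨x, j, by omega, hj1, ?_, ?_, ?_⟩
  · refine le_trans (Real.log_le_log (by exact_mod_cast (show 0 < x by omega)) ?_) hlog
    exact_mod_cast hle
  · rw [hQY]
    have := two_pow_le_Y (d := d) hx2 hy1 (j - 1)
    rwa [Nat.sub_add_cancel hj1] at this
  · intro T hT
    rw [hQY]
    rw [hQY] at hdiv
    exact log_Y_bound (by omega) hxy (by omega) hy1 hj1 hn hT hdiv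

theorem four_fact_lt {n : ℕ} (hn : 3 ≤ n) : 4 * n.factorial < 2 ^ (n ^ 2) := by
  have h1 : n.factorial ≤ n ^ n := Nat.factorial_le_pow n
  have h2 : n ≤ 2 ^ (n - 1) := by
    have := Nat.lt_two_pow_self (n := n - 1)
    omega
  have h3 : n ^ n ≤ 2 ^ ((n - 1) * n) := by
    rw [pow_mul]
    exact Nat.pow_le_pow_left h2 n
  calc 4 * n.factorial ≤ 4 * 2 ^ ((n - 1) * n) := by omega
    _ = 2 ^ ((n - 1) * n + 2) := by rw [pow_add]; ring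
    _ < 2 ^ (n ^ 2) := by
        apply Nat.pow_lt_pow_right (by norm_num)
        obtain ⟨m, rfl⟩ : ∃ m, n = m + 1 := ⟨n - 1, by omega⟩
        simp only [Nat.add_sub_cancel]
        nlinarith

end Pool.Agent.GapB
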