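import Mathlib

/-!
Powers of a solution of `x² = d y² + 1` in natural numbers: rank of apparition and the exact
power of a prime in `Y k`.
-/

namespace Pool.Agent.GapB

/-- the powers of `x + y √d`, as pairs of natural numbers -/
def S (d x y : ℕ) : ℕ → ℕ × ℕ
  | 0 => (1, 0)
  | k + 1 => (x * (S d x y k).1 + d * y * (S d x y k).2, x * (S d x y k).2 + y * (S d x y k).1)

def X (d x y k : ℕ) : ℕ := (S d x y k).1
def Y (d x y k : ℕ) : ℕ := (S d x y k).2

section
variable (d x y : ℕ)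

@[simp] theorem X_zero : X d x y 0 = 1 := rfl
@[simp] theorem Y_zero : Y d x y 0 = 0 := rfl
theorem X_succ (k : ℕ) : X d x y (k + 1) = x * X d x y k + d * y * Y d x y k := rfl
theorem Y_succ (k : ℕ) : Y d x y (k + 1) = x * Y d x y k + y * X d x y k := rfl
@[simp] theorem X_one : X d x y 1 = x := by simp [X_succ]
@[simp] theorem Y_one : Y d x y 1 = y := by simp [Y_succ]

theorem add_aux (m n : ℕ) :
    X d x y (m + n) = X d x y m * X d x y n + d * Y d x y m * Y d x y n ∧
    Y d x y (m + n) = X d x y m * Y d x y n + Y d x y m * X d x y n := by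
  induction n with
  | zero => simp
  | succ n ih =>
    obtain ⟨h1, h2⟩ := ih
    constructor
    · rw [← add_assoc, X_succ d x y (m + n), h1, h2, X_succ d x y n, Y_succ d x y n]; ring
    · rw [← add_assoc, Y_succ d x y (m + n), h1, h2, X_succ d x y n, Y_succ d x y n]; ring

theorem X_add (m n : ℕ) :
    X d x y (m + n) = X d x y m * X d x y n + d * Y d x y m * Y d x y n := (add_aux d x y m n).1
theorem Y_add (m n : ℕ) :
    Y d x y (m + n) = X d x y m * Y d x y n + Y d x y m * X d x y n := (add_aux d x y m n).2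

variable {d x y}

theorem pell (h : x ^ 2 = d * y ^ 2 + 1) (k : ℕ) :
    X d x y k ^ 2 = d * Y d x y k ^ 2 + 1 := by
  induction k with
  | zero => simp
  | succ k ih =>
    rw [X_succ, Y_succ]
    zify at h ih ⊢
    linear_combination ((X d x y k : ℤ) ^ 2 - d * Y d x y k ^ 2) * h + ih

/-- `p ∣ Y k` implies `p ∤ X k` -/
theorem not_dvd_X (h : x ^ 2 = d * y ^ 2 + 1) {p k : ℕ} (hp : p.Prime) (hk : p ∣ Y d x y k) :
    ¬ p ∣ X d x y k := by
  intro hx
  have h1 := pell h k
  have h2 : p ∣ X d x y k ^ 2 := dvd_pow hx (by norm_num)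
  have h3 : p ∣ d * Y d x y k ^ 2 := dvd_mul_of_dvd_right (dvd_pow hk (by norm_num)) _
  rw [h1] at h2
  have h4 := (Nat.dvd_add_right h3).1 h2
  exact hp.one_lt.ne' (Nat.dvd_one.1 h4)

theorem X_pos (hx : 1 ≤ x) (k : ℕ) : 1 ≤ X d x y k := by
  induction k with
  | zero => simp
  | succ k ih => rw [X_succ]; nlinarith [Nat.zero_le (d * y * Y d x y k), Nat.mul_le_mul hx ih]

theorem Y_pos (hx : 1 ≤ x) (hy : 1 ≤ y) {k : ℕ} (hk : 1 ≤ k) : 1 ≤ Y d x y k := by
  obtain ⟨k, rfl⟩ : ∃ j, k = j + 1 := ⟨k - 1, by omega⟩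
  rw [Y_succ]
  have := X_pos (d := d) (y := y) hx k
  nlinarith [Nat.zero_le (x * Y d x y k), Nat.mul_le_mul hy this]

/-- `Y (m k) = Y m (k X m ^ (k-1) + Y m ^ 2 c)` -/
theorem mul_form (m k : ℕ) : ∃ c e : ℕ,
    Y d x y (m * (k + 1)) = Y d x y m * ((k + 1) * X d x y m ^ k + Y d x y m ^ 2 * c) ∧
    X d x y (m * (k + 1)) = X d x y m ^ (k + 1) + Y d x y m ^ 2 * e := by
  induction k with
  | zero => exact ⟨0, 0, by simp, by simp⟩
  | succ k ih =>
    obtain ⟨c, e, h1, h2⟩ := ih
    refine ⟨e + X d x y m * c, X d x y m * e +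
      d * ((k + 1) * X d x y m ^ k + Y d x y m ^ 2 * c), ?_, ?_⟩
    · rw [mul_add m (k + 1) 1, mul_one, Y_add, h1, h2]; ring
    · rw [mul_add m (k + 1) 1, mul_one, X_add, h1, h2]; ring

theorem dvd_Y_mul {p m : ℕ} (hm : p ∣ Y d x y m) (k : ℕ) : p ∣ Y d x y (m * k) := by
  rcases k with _ | k
  · simp
  · obtain ⟨c, e, h1, _⟩ := mul_form (d := d) (x := x) (y := y) m k
    rw [h1]; exact dvd_mul_of_dvd_left hm _

/-- `p ∣ Y m`, `p ∣ Y k`, `m ≤ k` imply `p ∣ Y (k - m)` -/
theorem dvd_Y_sub (h : x ^ 2 = d * y ^ 2 + 1) {p m k : ℕ} (hp : p.Prime)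
    (hm : p ∣ Y d x y m) (hk : p ∣ Y d x y (m + k)) : p ∣ Y d x y k := by
  rw [Y_add] at hk
  have h2 := (Nat.dvd_add_left (dvd_mul_of_dvd_left hm _)).1 hk
  rcases hp.dvd_mul.1 h2 with h3 | h3
  · exact absurd h3 (not_dvd_X h hp hm)
  · exact h3

/-- LTE -/
theorem padic_mul (h : x ^ 2 = d * y ^ 2 + 1) (hx : 1 ≤ x) (hy : 1 ≤ y) {p : ℕ} (hp : p.Prime) :
    ∀ k m : ℕ, 1 ≤ m → 1 ≤ k → p ∣ Y d x y m →
      (Y d x y (m * k)).factorization p = (Y d x y m).factorization p + k.factorization p := by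
  intro k
  induction k using Nat.strong_induction_on with
  | _ k ih =>
    intro m hm hk hpm
    have hYm := Y_pos (d := d) hx hy hm
    have hndX := not_dvd_X h hp hpm
    by_cases hpk : p ∣ k
    · obtain ⟨k', rfl⟩ := hpk
      have hk' : 1 ≤ k' := by
        rcases Nat.eq_zero_or_pos k' with h0 | h0
        · subst h0; simp at hk
        · exact h0
      have hlt : k' < p * k' := by nlinarith [hp.two_le]
      have h1 := ih k' hlt (m * p) (Nat.mul_pos hm hp.pos) hk' (dvd_Y_mul hpm p)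
      rw [← mul_assoc, h1, Nat.factorization_mul hp.ne_zero (by omega), Finsupp.add_apply,
        hp.factorization_self]
      have h2 : (Y d x y (m * p)).factorization p = (Y d x y m).factorization p + 1 := by
        obtain ⟨c, e, h3, _⟩ := mul_form (d := d) (x := x) (y := y) m (p - 1)
        have hp1 : p - 1 + 1 = p := Nat.succ_pred_eq_of_pos hp.pos
        rw [hp1] at h3
        obtain ⟨z, hz⟩ := hpm
        have h4 : p * X d x y m ^ (p - 1) + Y d x y m ^ 2 * c
            = p * (X d x y m ^ (p - 1) + p * (z ^ 2 * c)) := by rw [hz]; ring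
        have h5 : ¬ p ∣ X d x y m ^ (p - 1) + p * (z ^ 2 * c) := by
          intro h6
          have h7 := (Nat.dvd_add_left (dvd_mul_right p (z ^ 2 * c))).1 h6
          exact hndX (hp.dvd_of_dvd_pow h7)
        have h8 : X d x y m ^ (p - 1) + p * (z ^ 2 * c) ≠ 0 := by
          intro h9; rw [h9] at h5; exact h5 (dvd_zero p)
        rw [h3, h4, Nat.factorization_mul (by omega) (Nat.mul_ne_zero hp.ne_zero h8),
          Nat.factorization_mul hp.ne_zero h8, Finsupp.add_apply, Finsupp.add_apply,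
          hp.factorization_self, Nat.factorization_eq_zero_of_not_dvd h5]
      rw [h2]; ring
    · obtain ⟨j, rfl⟩ : ∃ j, k = j + 1 := ⟨k - 1, by omega⟩
      obtain ⟨c, e, h3, _⟩ := mul_form (d := d) (x := x) (y := y) m j
      have h5 : ¬ p ∣ (j + 1) * X d x y m ^ j + Y d x y m ^ 2 * c := by
        intro h6
        have h7 := (Nat.dvd_add_left (dvd_mul_of_dvd_left (dvd_pow hpm two_ne_zero) c)).1 h6
        rcases hp.dvd_mul.1 h7 with h8 | h8
        · exact hpk h8
        · exact hndX (hp.dvd_of_dvd_pow h8)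
      have h8 : (j + 1) * X d x y m ^ j + Y d x y m ^ 2 * c ≠ 0 := by
        intro h9; rw [h9] at h5; exact h5 (dvd_zero p)
      rw [h3, Nat.factorization_mul (by omega) h8, Finsupp.add_apply,
        Nat.factorization_eq_zero_of_not_dvd h5, Nat.factorization_eq_zero_of_not_dvd hpk]

end

end Pool.Agent.GapB
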