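import Pool.Agent.GapB.Pell

/-!
The rank of apparition of a prime divides `p - 1`, `p` or `p + 1`.
-/

namespace Pool.Agent.GapB

section
variable (d x y : ℕ)

theorem zsqrtd_pow (k : ℕ) :
    (⟨(x : ℤ), (y : ℤ)⟩ : ℤ√(d : ℤ)) ^ k = ⟨(X d x y k : ℤ), (Y d x y k : ℤ)⟩ := by
  induction k with
  | zero => simp; rfl
  | succ k ih =>
    rw [pow_succ, ih]
    ext
    · simp only [Zsqrtd.re_mul, X_succ]; push_cast; ring
    · simp only [Zsqrtd.im_mul, Y_succ]; push_cast; ring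

theorem im_pow (m : ℕ) :
    (⟨0, (y : ℤ)⟩ : ℤ√(d : ℤ)) ^ (2 * m + 1) = ⟨0, (y : ℤ) ^ (2 * m + 1) * (d : ℤ) ^ m⟩ := by
  induction m with
  | zero => ext <;> simp
  | succ m ih =>
    rw [show 2 * (m + 1) + 1 = (2 * m + 1) + 1 + 1 by ring, pow_succ, pow_succ, ih]
    ext
    · simp [Zsqrtd.re_mul, Zsqrtd.im_mul]
    · simp only [Zsqrtd.re_mul, Zsqrtd.im_mul]; push_cast; ring

variable {d x y}

theorem rank_aux (h : x ^ 2 = d * y ^ 2 + 1) {p : ℕ} (hp : p.Prime) (hp2 : p ≠ 2) :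
    p ∣ Y d x y (p - 1) ∨ p ∣ Y d x y p ∨ p ∣ Y d x y (p + 1) := by
  have : Fact p.Prime := ⟨hp⟩
  obtain ⟨m, hm⟩ : ∃ m, p = 2 * m + 1 := (hp.odd_of_ne_two hp2)
  obtain ⟨r, hr⟩ := exists_add_pow_prime_eq hp (⟨(x : ℤ), 0⟩ : ℤ√(d : ℤ)) ⟨0, (y : ℤ)⟩
  have h0 : (⟨(x : ℤ), 0⟩ : ℤ√(d : ℤ)) + ⟨0, (y : ℤ)⟩ = ⟨(x : ℤ), (y : ℤ)⟩ := by
    ext <;> simp
  have h1 : (⟨(x : ℤ), 0⟩ : ℤ√(d : ℤ)) ^ p = ⟨(x : ℤ) ^ p, 0⟩ := by
    have : (⟨(x : ℤ), 0⟩ : ℤ√(d : ℤ)) = ((x : ℤ) : ℤ√(d : ℤ)) := by ext <;> simp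
    rw [this, ← Int.cast_pow]
    ext
    · rw [Zsqrtd.re_intCast]
    · rw [Zsqrtd.im_intCast]
  have h2 := im_pow d y m
  rw [← hm] at h2
  rw [h0, zsqrtd_pow, h1, h2, mul_assoc, mul_assoc] at hr
  set w := (⟨(x : ℤ), 0⟩ : ℤ√(d : ℤ)) * (⟨0, (y : ℤ)⟩ * r) with hw
  have hre := congrArg Zsqrtd.re hr
  have him := congrArg Zsqrtd.im hr
  have hpc : (p : ℤ√(d : ℤ)) = ⟨(p : ℤ), 0⟩ := by ext <;> simp
  rw [hpc] at hre him
  simp only [Zsqrtd.re_add, Zsqrtd.im_add, Zsqrtd.re_mul, Zsqrtd.im_mul, add_zero, zero_add,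
    mul_zero, zero_mul] at hre him
  have hre' := congrArg (Int.cast : ℤ → ZMod p) hre
  have him' := congrArg (Int.cast : ℤ → ZMod p) him
  push_cast at hre' him'
  have hpz : (p : ZMod p) = 0 := ZMod.natCast_self p
  simp only [hpz, zero_mul, add_zero, ZMod.pow_card] at hre' him'
  -- now X p ≡ x, Y p ≡ y d^m
  have hs1 : X d x y p = x * X d x y (p - 1) + d * y * Y d x y (p - 1) := by
    conv_lhs => rw [show p = (p - 1) + 1 from (Nat.succ_pred_eq_of_pos hp.pos).symm]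
    rw [X_succ]
  have hs2 : Y d x y p = x * Y d x y (p - 1) + y * X d x y (p - 1) := by
    conv_lhs => rw [show p = (p - 1) + 1 from (Nat.succ_pred_eq_of_pos hp.pos).symm]
    rw [Y_succ]
  have hs1' := congrArg (Nat.cast : ℕ → ZMod p) hs1
  have hs2' := congrArg (Nat.cast : ℕ → ZMod p) hs2
  have hh := congrArg (Nat.cast : ℕ → ZMod p) h
  push_cast at hs1' hs2' hh
  rw [hre'] at hs1'
  rw [him'] at hs2'
  by_cases hd : (d : ZMod p) = 0
  · right; left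
    have hm1 : m ≠ 0 := by
      rintro rfl
      simp at hm
      exact hp.one_lt.ne' hm
    rw [← ZMod.natCast_eq_zero_iff, him', hd, zero_pow hm1, mul_zero]
  · have hpd : p / 2 = m := by omega
    rcases ZMod.pow_div_two_eq_neg_one_or_one p hd with h3 | h3
    · left
      rw [hpd] at h3
      rw [h3, mul_one] at hs2'
      rw [← ZMod.natCast_eq_zero_iff]
      linear_combination (-(Y d x y (p - 1) : ZMod p)) * hh + (-(x : ZMod p)) * hs2' + (y : ZMod p) * hs1'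
    · right; right
      rw [hpd] at h3
      rw [h3] at him'
      rw [← ZMod.natCast_eq_zero_iff, Y_succ]
      push_cast
      rw [hre', him']
      ring

theorem two_dvd_Y_two : 2 ∣ Y d x y 2 := by
  rw [show (2 : ℕ) = 1 + 1 by rfl, Y_add, Y_one, X_one]
  exact ⟨x * y, by ring⟩

theorem exists_rank (h : x ^ 2 = d * y ^ 2 + 1) {p : ℕ} (hp : p.Prime) :
    ∃ r, 1 ≤ r ∧ p ∣ Y d x y r := by
  by_cases hp2 : p = 2
  · subst hp2; exact ⟨2, by norm_num, two_dvd_Y_two⟩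
  · have := hp.two_le
    rcases rank_aux h hp hp2 with h1 | h1 | h1
    · exact ⟨p - 1, by omega, h1⟩
    · exact ⟨p, by omega, h1⟩
    · exact ⟨p + 1, by omega, h1⟩

open Classical in
/-- the rank of apparition (with value `0` if there is none) -/
noncomputable def rk (d x y p : ℕ) : ℕ :=
  if h : ∃ r, 1 ≤ r ∧ p ∣ Y d x y r then Nat.find h else 0

theorem rk_spec (h : x ^ 2 = d * y ^ 2 + 1) {p : ℕ} (hp : p.Prime) :
    1 ≤ rk d x y p ∧ p ∣ Y d x y (rk d x y p) := by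
  classical
  have h1 := exists_rank h hp
  unfold rk
  rw [dif_pos h1]
  exact Nat.find_spec h1

theorem rk_min (h : x ^ 2 = d * y ^ 2 + 1) {p k : ℕ} (hp : p.Prime) (hk : 1 ≤ k)
    (hpk : p ∣ Y d x y k) : rk d x y p ≤ k := by
  classical
  have h1 := exists_rank h hp
  unfold rk
  rw [dif_pos h1]
  exact Nat.find_min' h1 ⟨hk, hpk⟩

theorem rk_dvd (h : x ^ 2 = d * y ^ 2 + 1) {p k : ℕ} (hp : p.Prime)
    (hpk : p ∣ Y d x y k) : rk d x y p ∣ k := by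
  obtain ⟨hr1, hr2⟩ := rk_spec h hp
  set r := rk d x y p with hr
  have h3 : p ∣ Y d x y (k % r) := by
    have h4 : r * (k / r) + k % r = k := Nat.div_add_mod k r
    rw [← h4] at hpk
    exact dvd_Y_sub h hp (dvd_Y_mul hr2 _) hpk
  by_contra hcon
  have h5 : 1 ≤ k % r := Nat.one_le_iff_ne_zero.2 (fun h0 => hcon (Nat.dvd_of_mod_eq_zero h0))
  have h6 := rk_min h hp h5 h3
  have h7 := Nat.mod_lt k (show 0 < r by omega)
  omega

theorem rk_two_le (h : x ^ 2 = d * y ^ 2 + 1) : rk d x y 2 ≤ 2 :=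
  rk_min h Nat.prime_two (by norm_num) two_dvd_Y_two

theorem rk_cases (h : x ^ 2 = d * y ^ 2 + 1) {p : ℕ} (hp : p.Prime) (hp2 : p ≠ 2) :
    rk d x y p ∣ p - 1 ∨ rk d x y p ∣ p ∨ rk d x y p ∣ p + 1 := by
  rcases rank_aux h hp hp2 with h1 | h1 | h1
  · exact Or.inl (rk_dvd h hp h1)
  · exact Or.inr (Or.inl (rk_dvd h hp h1))
  · exact Or.inr (Or.inr (rk_dvd h hp h1))

/-- the exponent of a prime in `Y j` -/
theorem fact_Y_le (h : x ^ 2 = d * y ^ 2 + 1) (hx : 1 ≤ x) (hy : 1 ≤ y) {p j : ℕ} (hp : p.Prime)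
    (hj : 1 ≤ j) (hpj : p ∣ Y d x y j) :
    (Y d x y j).factorization p ≤
      (Y d x y (rk d x y p)).factorization p + j.factorization p := by
  obtain ⟨hr1, hr2⟩ := rk_spec h hp
  obtain ⟨k, hk⟩ := rk_dvd h hp hpj
  have hk1 : 1 ≤ k := by
    rcases Nat.eq_zero_or_pos k with h0 | h0
    · subst h0; omega
    · exact h0
  have h1 := padic_mul h hx hy hp k _ hr1 hk1 hr2
  rw [← hk] at h1
  rw [h1]
  have h2 : k.factorization p ≤ j.factorization p := by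
    rw [hk, Nat.factorization_mul (by omega) (by omega), Finsupp.add_apply]
    omega
  omega

end

end Pool.Agent.GapB
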